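import Pool.Agent.Q93.TP.ExpDet
import Pool.Agent.H801R3.SB.CB

/-!
Block diagonal extension of a totally nonnegative kernel and composition with Gaussian kernels.
-/

set_option autoImplicit false

namespace Q93.TP

open Matrix Filter Topology

/-- total nonnegativity on `X × Y`, for kernels defined on the plane -/
def TN (X Y : Set ℝ) (K : ℝ → ℝ → ℝ) : Prop :=
  ∀ (n : ℕ) (x y : Fin n → ℝ), StrictMono x → StrictMono y → (∀ i, x i ∈ X) → (∀ j, y j ∈ Y) →
    0 ≤ (Matrix.of fun i j => K (x i) (y j)).det

/-- block diagonal kernel -/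
noncomputable def blk (K : ℝ → ℝ → ℝ) (A : ℝ) (ε : ℝ → ℝ) (t s : ℝ) : ℝ :=
  if t < A then (if s < A then K t s else 0) else if t = s then ε t else 0

lemma blk_TN {S R : Set ℝ} {K : ℝ → ℝ → ℝ} (hK : TN S R K) (A : ℝ) {ε : ℝ → ℝ}
    (hε : ∀ t, 0 ≤ ε t) : TN (S ∪ Set.Ici A) (R ∪ Set.Ici A) (blk K A ε) := by
  intro n
  induction n with
  | zero => intro x y _ _ _ _; simp
  | succ n ih =>
    intro x y hx hy hxm hym
    have hxle : ∀ i, x i ≤ x (Fin.last n) := fun i => hx.monotone (Fin.le_last i)
    have hyle : ∀ i, y i ≤ y (Fin.last n) := fun i => hy.monotone (Fin.le_last i)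
    by_cases h1 : x (Fin.last n) < A
    · have hxA : ∀ i, x i < A := fun i => (hxle i).trans_lt h1
      by_cases h2 : y (Fin.last n) < A
      · have hyA : ∀ i, y i < A := fun i => (hyle i).trans_lt h2
        have e : (Matrix.of fun i j => blk K A ε (x i) (y j)) =
            Matrix.of fun i j => K (x i) (y j) := by
          ext i j
          simp only [Matrix.of_apply, blk, if_pos (hxA i), if_pos (hyA j)]
        rw [e]
        refine hK _ x y hx hy (fun i => ?_) fun j => ?_
        · exact (hxm i).resolve_right fun h => absurd (hxA i) (not_lt.2 h)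
        · exact (hym j).resolve_right fun h => absurd (hyA j) (not_lt.2 h)
      · rw [Matrix.det_eq_zero_of_column_eq_zero (Fin.last n)]
        intro i
        simp only [Matrix.of_apply, blk, if_pos (hxA i), if_neg h2]
    · by_cases h3 : x (Fin.last n) = y (Fin.last n)
      · rw [Matrix.det_succ_row _ (Fin.last n), Fin.sum_univ_castSucc]
        have hz : ∀ j : Fin n, (Matrix.of fun i j => blk K A ε (x i) (y j)) (Fin.last n)
            j.castSucc = 0 := by
          intro j
          have h4 : y j.castSucc < y (Fin.last n) := hy (Fin.castSucc_lt_last j)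
          rw [← h3] at h4
          simp only [Matrix.of_apply, blk, if_neg h1, if_neg h4.ne']
        have hl : (Matrix.of fun i j => blk K A ε (x i) (y j)) (Fin.last n) (Fin.last n) =
            ε (x (Fin.last n)) := by
          simp only [Matrix.of_apply, blk, if_neg h1, if_pos h3]
        have hs : (Matrix.of fun i j => blk K A ε (x i) (y j)).submatrix
            (Fin.last n).succAbove (Fin.last n).succAbove =
            Matrix.of fun i j => blk K A ε (x i.castSucc) (y j.castSucc) := by
          ext i j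
          simp [Fin.succAbove_last]
        simp only [hz, mul_zero, zero_mul, Finset.sum_const_zero, zero_add, hl, hs]
        have h5 := ih (fun i => x i.castSucc) (fun i => y i.castSucc)
          (hx.comp Fin.strictMono_castSucc) (hy.comp Fin.strictMono_castSucc)
          (fun i => hxm _) (fun i => hym _)
        have h6 : (-1 : ℝ) ^ ((Fin.last n : ℕ) + (Fin.last n : ℕ)) = 1 := by
          rw [← two_mul, pow_mul]; norm_num
        rw [h6, one_mul]
        exact mul_nonneg (hε _) h5
      · by_cases h4 : ∃ j, y j = x (Fin.last n)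
        · obtain ⟨j, hj⟩ := h4
          have h5 : x (Fin.last n) < y (Fin.last n) := by
            refine lt_of_le_of_ne ?_ h3
            rw [← hj]
            exact hyle j
          rw [Matrix.det_eq_zero_of_column_eq_zero (Fin.last n)]
          intro i
          have h6 : ¬ y (Fin.last n) < A := not_lt.2 ((not_lt.1 h1).trans h5.le)
          have h7 : x i ≠ y (Fin.last n) := ((hxle i).trans_lt h5).ne
          simp only [Matrix.of_apply, blk, if_neg h6, if_neg h7, ite_self]
        · push Not at h4
          rw [Matrix.det_eq_zero_of_row_eq_zero (Fin.last n)]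
          intro j
          simp only [Matrix.of_apply, blk, if_neg h1, if_neg (h4 j).symm]

section comp

variable {ι κ : Type} [Fintype ι] [Fintype κ] [LinearOrder ι] [LinearOrder κ]

/-- each term of the double Cauchy–Binet formula is nonnegative -/
lemma term_nonneg {n : ℕ} (P : Matrix (Fin n) ι ℝ) (M : Matrix ι κ ℝ) (Q : Matrix κ (Fin n) ℝ)
    (hP : ∀ a : Fin n → ι, StrictMono a → 0 ≤ (P.submatrix id a).det)
    (hM : ∀ (a : Fin n → ι) (b : Fin n → κ), StrictMono a → StrictMono b →
      0 ≤ (M.submatrix a b).det)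
    (hQ : ∀ b : Fin n → κ, StrictMono b → 0 ≤ (Q.submatrix b id).det)
    (a : Fin n → ι) (b : Fin n → κ) :
    0 ≤ (P.submatrix id a).det * ((M.submatrix a b).det * (Q.submatrix b id).det) := by
  by_cases ha : Function.Injective a
  swap
  · rw [Function.not_injective_iff] at ha
    obtain ⟨i, j, hij, hne⟩ := ha
    rw [Matrix.det_zero_of_column_eq hne (fun k => by simp [hij]), zero_mul]
  by_cases hb : Function.Injective b
  swap
  · rw [Function.not_injective_iff] at hb
    obtain ⟨i, j, hij, hne⟩ := hb
    rw [Matrix.det_zero_of_row_eq (M := Q.submatrix b id) hne (by ext k; simp [hij]), mul_zero,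
      mul_zero]
  set σ := Tuple.sort a with hσ
  set τ := Tuple.sort b with hτ
  have ha' : StrictMono (a ∘ σ) := (Tuple.monotone_sort a).strictMono_of_injective
    (ha.comp σ.injective)
  have hb' : StrictMono (b ∘ τ) := (Tuple.monotone_sort b).strictMono_of_injective
    (hb.comp τ.injective)
  have e1 : (P.submatrix id (a ∘ σ)).det = (Equiv.Perm.sign σ : ℤ) * (P.submatrix id a).det := by
    have : P.submatrix id (a ∘ σ) = (P.submatrix id a).submatrix id σ := rfl
    rw [this, Matrix.det_permute']
  have e2 : (M.submatrix (a ∘ σ) (b ∘ τ)).det =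
      (Equiv.Perm.sign σ : ℤ) * ((Equiv.Perm.sign τ : ℤ) * (M.submatrix a b).det) := by
    have : M.submatrix (a ∘ σ) (b ∘ τ) = ((M.submatrix a b).submatrix id τ).submatrix σ id := rfl
    rw [this, Matrix.det_permute, Matrix.det_permute']
  have e3 : (Q.submatrix (b ∘ τ) id).det = (Equiv.Perm.sign τ : ℤ) * (Q.submatrix b id).det := by
    have : Q.submatrix (b ∘ τ) id = (Q.submatrix b id).submatrix τ id := rfl
    rw [this, Matrix.det_permute]
  have s1 : ((Equiv.Perm.sign σ : ℤ) : ℝ) * ((Equiv.Perm.sign σ : ℤ) : ℝ) = 1 := by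
    rw [← Int.cast_mul, ← Units.val_mul, Int.units_mul_self]
    simp
  have s2 : ((Equiv.Perm.sign τ : ℤ) : ℝ) * ((Equiv.Perm.sign τ : ℤ) : ℝ) = 1 := by
    rw [← Int.cast_mul, ← Units.val_mul, Int.units_mul_self]
    simp
  have h := mul_nonneg (hP _ ha') (mul_nonneg (hM _ _ ha' hb') (hQ _ hb'))
  rw [e1, e2, e3] at h
  have e4 : ((Equiv.Perm.sign σ : ℤ) : ℝ) * (P.submatrix id a).det *
      ((Equiv.Perm.sign σ : ℤ) * ((Equiv.Perm.sign τ : ℤ) * (M.submatrix a b).det) *
        ((Equiv.Perm.sign τ : ℤ) * (Q.submatrix b id).det)) =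
      (((Equiv.Perm.sign σ : ℤ) : ℝ) * ((Equiv.Perm.sign σ : ℤ) : ℝ)) *
      (((Equiv.Perm.sign τ : ℤ) : ℝ) * ((Equiv.Perm.sign τ : ℤ) : ℝ)) *
      ((P.submatrix id a).det * ((M.submatrix a b).det * (Q.submatrix b id).det)) := by ring
  rw [e4, s1, s2, one_mul, one_mul] at h
  exact h

/-- lower bound of the determinant of a product by one term -/
lemma comp_ge {n : ℕ} (P : Matrix (Fin n) ι ℝ) (M : Matrix ι κ ℝ) (Q : Matrix κ (Fin n) ℝ)
    (hP : ∀ a : Fin n → ι, StrictMono a → 0 ≤ (P.submatrix id a).det)
    (hM : ∀ (a : Fin n → ι) (b : Fin n → κ), StrictMono a → StrictMono b →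
      0 ≤ (M.submatrix a b).det)
    (hQ : ∀ b : Fin n → κ, StrictMono b → 0 ≤ (Q.submatrix b id).det)
    (a : Fin n → ι) (b : Fin n → κ) :
    (n.factorial : ℝ)⁻¹ * ((n.factorial : ℝ)⁻¹ *
      ((P.submatrix id a).det * ((M.submatrix a b).det * (Q.submatrix b id).det))) ≤
      (P * (M * Q)).det := by
  classical
  rw [Pool.Agent.H801R3.SB.cauchyBinet]
  have h1 : ∀ a : Fin n → ι, ((M * Q).submatrix a id).det = (n.factorial : ℝ)⁻¹ *
      ∑ b : Fin n → κ, (M.submatrix a b).det * (Q.submatrix b id).det := by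
    intro a
    have : (M * Q).submatrix a id = M.submatrix a id * Q := by
      ext i j
      simp [Matrix.mul_apply]
    rw [this, Pool.Agent.H801R3.SB.cauchyBinet]
    rfl
  simp only [h1]
  have hf : (0 : ℝ) ≤ (n.factorial : ℝ)⁻¹ := by positivity
  refine mul_le_mul_of_nonneg_left ?_ hf
  have h2 : ∀ a : Fin n → ι, (P.submatrix id a).det * ((n.factorial : ℝ)⁻¹ *
      ∑ b : Fin n → κ, (M.submatrix a b).det * (Q.submatrix b id).det) =
      (n.factorial : ℝ)⁻¹ * ∑ b : Fin n → κ, (P.submatrix id a).det *
        ((M.submatrix a b).det * (Q.submatrix b id).det) := by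
    intro a
    rw [mul_left_comm, Finset.mul_sum]
  simp only [h2]
  rw [← Finset.mul_sum]
  refine mul_le_mul_of_nonneg_left ?_ hf
  have h3 : ∀ a, 0 ≤ ∑ b : Fin n → κ, (P.submatrix id a).det *
      ((M.submatrix a b).det * (Q.submatrix b id).det) := fun a =>
    Finset.sum_nonneg fun b _ => term_nonneg P M Q hP hM hQ a b
  refine le_trans ?_ (Finset.single_le_sum (fun a _ => h3 a) (Finset.mem_univ a))
  exact Finset.single_le_sum (f := fun b => (P.submatrix id a).det *
      ((M.submatrix a b).det * (Q.submatrix b id).det))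
    (fun b _ => term_nonneg P M Q hP hM hQ a b) (Finset.mem_univ b)

end comp

end Q93.TP
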