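import Pool.Agent.Q93.TP.Kern

/-!
Convergence of the normalised kernels.
-/

set_option autoImplicit false

namespace Q93.TP

open Matrix Filter Topology

/-- deterministic estimate -/
lemma est {K : ℝ → ℝ → ℝ} {S R : Finset ℝ} (A : ℝ) {c δ x y η k0 e : ℝ} (hc : 0 < c) (hδ : 0 ≤ δ)
    (hη : 0 < η) (he : 0 ≤ e)
    (h : ∀ t ∈ S, ∀ s ∈ R, |t - x| < η → |s - y| < η → |K t s - k0| ≤ e)
    (ht : ∃ t ∈ S, |t - x| ≤ η / 2) (hs : ∃ s ∈ R, |s - y| ≤ η / 2) :
    |KK K S R A c δ x y - k0| ≤ e + Real.exp (-(c * η ^ 2 / 2)) * (∑ t ∈ S, ∑ s ∈ R, |K t s - k0|) +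
      2 * δ * Real.exp (c * η ^ 2 / 2) := by
  obtain ⟨t0, ht0, ht0'⟩ := ht
  obtain ⟨s0, hs0, hs0'⟩ := hs
  have hSne : S.Nonempty := ⟨t0, ht0⟩
  have hRne : R.Nonempty := ⟨s0, hs0⟩
  have hZ := ZZ_pos hSne c x
  have hW := ZZ_pos hRne c y
  have hlow : ∀ (S : Finset ℝ) (x t0 : ℝ), t0 ∈ S → |t0 - x| ≤ η / 2 →
      Real.exp (-(c * η ^ 2 / 4)) ≤ ZZ S c x := by
    intro S x t0 ht0 ht0'
    have h1 : gau c x t0 ≤ ZZ S c x :=
      Finset.single_le_sum (f := fun t => gau c x t) (fun t _ => (gau_pos c x t).le) ht0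
    refine le_trans ?_ h1
    unfold gau
    apply Real.exp_le_exp.2
    have h2 : (x - t0) ^ 2 ≤ (η / 2) ^ 2 := by
      rw [← sq_abs (x - t0), abs_sub_comm]
      exact pow_le_pow_left₀ (abs_nonneg _) ht0' 2
    nlinarith
  have hZl := hlow S x t0 ht0 ht0'
  have hWl := hlow R y s0 hs0 hs0'
  -- weights
  let α : ℝ → ℝ := fun t => (ZZ S c x)⁻¹ * gau c x t
  let β : ℝ → ℝ := fun s => (ZZ R c y)⁻¹ * gau c y s
  have hα0 : ∀ t, 0 ≤ α t := fun t => mul_nonneg (inv_nonneg.2 hZ.le) (gau_pos _ _ _).le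
  have hβ0 : ∀ t, 0 ≤ β t := fun t => mul_nonneg (inv_nonneg.2 hW.le) (gau_pos _ _ _).le
  have hα1 : ∑ t ∈ S, α t = 1 := by
    simp only [α, ← Finset.mul_sum]
    exact inv_mul_cancel₀ hZ.ne'
  have hβ1 : ∑ t ∈ R, β t = 1 := by
    simp only [β, ← Finset.mul_sum]
    exact inv_mul_cancel₀ hW.ne'
  have hαle : ∀ t ∈ S, α t ≤ 1 := fun t ht => by
    rw [← hα1]; exact Finset.single_le_sum (fun t _ => hα0 t) ht
  have hβle : ∀ t ∈ R, β t ≤ 1 := fun t ht => by
    rw [← hβ1]; exact Finset.single_le_sum (fun t _ => hβ0 t) ht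
  have hfar : ∀ (S : Finset ℝ) (x t : ℝ), Real.exp (-(c * η ^ 2 / 4)) ≤ ZZ S c x →
      0 < ZZ S c x → η ≤ |t - x| → (ZZ S c x)⁻¹ * gau c x t ≤ Real.exp (-(c * η ^ 2 / 2)) := by
    intro S x t hl hp hd
    rw [inv_mul_le_iff₀ hp]
    have h1 : gau c x t ≤ Real.exp (-(c * η ^ 2 / 4)) * Real.exp (-(c * η ^ 2 / 2)) := by
      unfold gau
      rw [← Real.exp_add]
      apply Real.exp_le_exp.2
      have h2 : η ^ 2 ≤ (x - t) ^ 2 := by
        rw [← sq_abs (x - t), abs_sub_comm]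
        exact pow_le_pow_left₀ hη.le hd 2
      nlinarith [mul_pos hc (pow_pos hη 2)]
    exact h1.trans (mul_le_mul_of_nonneg_right hl (Real.exp_pos _).le)
  -- decomposition
  have hdec : KK K S R A c δ x y - k0 = (∑ t ∈ S, ∑ s ∈ R, α t * β s * (K t s - k0)) +
      (ZZ S c x)⁻¹ * ((ZZ R c y)⁻¹ * ∑' k, ext A c δ x y k) := by
    have h1 : (∑ t ∈ S, ∑ s ∈ R, α t * β s * (K t s - k0)) =
        (∑ t ∈ S, ∑ s ∈ R, α t * β s * K t s) - k0 := by
      have h2 : (∑ t ∈ S, ∑ s ∈ R, α t * β s) = 1 := by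
        rw [← Finset.sum_mul_sum, hα1, hβ1, one_mul]
      calc (∑ t ∈ S, ∑ s ∈ R, α t * β s * (K t s - k0))
          = (∑ t ∈ S, ∑ s ∈ R, (α t * β s * K t s - α t * β s * k0)) := by
            refine Finset.sum_congr rfl fun t _ => Finset.sum_congr rfl fun s _ => by ring
        _ = (∑ t ∈ S, ∑ s ∈ R, α t * β s * K t s) - (∑ t ∈ S, ∑ s ∈ R, α t * β s) * k0 := by
            simp only [Finset.sum_sub_distrib, Finset.sum_mul]
        _ = _ := by rw [h2, one_mul]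
    have h3 : (ZZ S c x)⁻¹ * ((ZZ R c y)⁻¹ * F0 K S R c x y) =
        ∑ t ∈ S, ∑ s ∈ R, α t * β s * K t s := by
      unfold F0
      rw [Finset.mul_sum, Finset.mul_sum]
      refine Finset.sum_congr rfl fun t _ => ?_
      rw [Finset.mul_sum, Finset.mul_sum]
      refine Finset.sum_congr rfl fun s _ => ?_
      simp only [α, β]
      ring
    rw [h1, ← h3]
    unfold KK FF
    ring
  rw [hdec]
  have hfirst : |∑ t ∈ S, ∑ s ∈ R, α t * β s * (K t s - k0)| ≤
      e + Real.exp (-(c * η ^ 2 / 2)) * (∑ t ∈ S, ∑ s ∈ R, |K t s - k0|) := by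
    have h1 : ∀ t ∈ S, ∀ s ∈ R, |α t * β s * (K t s - k0)| ≤
        α t * β s * e + Real.exp (-(c * η ^ 2 / 2)) * |K t s - k0| := by
      intro t ht s hs
      rw [abs_mul, abs_of_nonneg (mul_nonneg (hα0 t) (hβ0 s))]
      by_cases h2 : |t - x| < η
      · by_cases h3 : |s - y| < η
        · have h4 := h t ht s hs h2 h3
          have h5 : α t * β s * |K t s - k0| ≤ α t * β s * e :=
            mul_le_mul_of_nonneg_left h4 (mul_nonneg (hα0 t) (hβ0 s))
          have h6 : 0 ≤ Real.exp (-(c * η ^ 2 / 2)) * |K t s - k0| := by positivity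
          linarith
        · have h4 := hfar R y s hWl hW (not_lt.1 h3)
          have h5 : α t * β s ≤ 1 * Real.exp (-(c * η ^ 2 / 2)) :=
            mul_le_mul (hαle t ht) h4 (hβ0 s) zero_le_one
          have h6 : α t * β s * |K t s - k0| ≤ 1 * Real.exp (-(c * η ^ 2 / 2)) * |K t s - k0| :=
            mul_le_mul_of_nonneg_right h5 (abs_nonneg _)
          have h7 : 0 ≤ α t * β s * e := mul_nonneg (mul_nonneg (hα0 t) (hβ0 s)) he
          linarith
      · have h4 := hfar S x t hZl hZ (not_lt.1 h2)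
        have h5 : α t * β s ≤ Real.exp (-(c * η ^ 2 / 2)) * 1 :=
          mul_le_mul h4 (hβle s hs) (hβ0 s) (Real.exp_pos _).le
        have h6 : α t * β s * |K t s - k0| ≤ Real.exp (-(c * η ^ 2 / 2)) * 1 * |K t s - k0| :=
          mul_le_mul_of_nonneg_right h5 (abs_nonneg _)
        have h7 : 0 ≤ α t * β s * e := mul_nonneg (mul_nonneg (hα0 t) (hβ0 s)) he
        linarith
    calc |∑ t ∈ S, ∑ s ∈ R, α t * β s * (K t s - k0)|
        ≤ ∑ t ∈ S, |∑ s ∈ R, α t * β s * (K t s - k0)| := Finset.abs_sum_le_sum_abs _ _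
      _ ≤ ∑ t ∈ S, ∑ s ∈ R, |α t * β s * (K t s - k0)| :=
          Finset.sum_le_sum fun t _ => Finset.abs_sum_le_sum_abs _ _
      _ ≤ ∑ t ∈ S, ∑ s ∈ R, (α t * β s * e + Real.exp (-(c * η ^ 2 / 2)) * |K t s - k0|) :=
          Finset.sum_le_sum fun t ht => Finset.sum_le_sum fun s hs => h1 t ht s hs
      _ = (∑ t ∈ S, ∑ s ∈ R, α t * β s) * e +
          Real.exp (-(c * η ^ 2 / 2)) * (∑ t ∈ S, ∑ s ∈ R, |K t s - k0|) := by
          simp only [Finset.sum_add_distrib, Finset.sum_mul, Finset.mul_sum]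
      _ = _ := by
          rw [← Finset.sum_mul_sum, hα1, hβ1, one_mul, one_mul]
  have hsecond : |(ZZ S c x)⁻¹ * ((ZZ R c y)⁻¹ * ∑' k, ext A c δ x y k)| ≤
      2 * δ * Real.exp (c * η ^ 2 / 2) := by
    have h1 : 0 ≤ ∑' k, ext A c δ x y k := tsum_nonneg fun k => by
      unfold ext
      have := (gau_pos c x (A + k)).le
      have := (gau_pos c y (A + k)).le
      positivity
    have h2 : ∑' k, ext A c δ x y k ≤ 2 * δ := by
      have h3 : ∑' k : ℕ, δ * (1 / 2 : ℝ) ^ k = 2 * δ := by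
        rw [tsum_mul_left, tsum_geometric_two, mul_comm]
      rw [← h3]
      refine Summable.tsum_le_tsum (fun k => ?_) (summable_ext hc.le hδ A x y)
        (summable_geometric_two.mul_left δ)
      unfold ext
      have h1 := (gau_pos c x (A + k)).le
      have h2 := (gau_pos c y (A + k)).le
      have h3 := gau_le_one hc.le x (A + k)
      have h4 := gau_le_one hc.le y (A + k)
      have h5 : (0 : ℝ) ≤ δ * (1 / 2) ^ k := by positivity
      calc gau c x (A + k) * (δ * (1 / 2) ^ k * gau c y (A + k))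
          ≤ 1 * (δ * (1 / 2) ^ k * 1) := by gcongr
        _ = δ * (1 / 2) ^ k := by ring
    rw [abs_of_nonneg (by positivity)]
    have h3 : ∀ (S : Finset ℝ) (x : ℝ), Real.exp (-(c * η ^ 2 / 4)) ≤ ZZ S c x →
        (ZZ S c x)⁻¹ ≤ Real.exp (c * η ^ 2 / 4) := by
      intro S x hl
      have := inv_anti₀ (Real.exp_pos _) hl
      rwa [← Real.exp_neg, neg_neg] at this
    calc (ZZ S c x)⁻¹ * ((ZZ R c y)⁻¹ * ∑' k, ext A c δ x y k)
        ≤ Real.exp (c * η ^ 2 / 4) * (Real.exp (c * η ^ 2 / 4) * (2 * δ)) := by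
          have := h3 S x hZl
          have := h3 R y hWl
          gcongr
      _ = 2 * δ * (Real.exp (c * η ^ 2 / 4) * Real.exp (c * η ^ 2 / 4)) := by ring
      _ = 2 * δ * Real.exp (c * η ^ 2 / 2) := by
          rw [← Real.exp_add]
          congr 2
          ring
  exact (abs_add_le _ _).trans (add_le_add hfirst hsecond)

end Q93.TP
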