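import Mathlib

/-!
Totally nonnegative and totally positive kernels on `X × Y`, `X, Y ⊆ ℝ`.
-/

set_option autoImplicit false

namespace Q93.TP

/-- The kernel `K` on `X × Y` is totally nonnegative: `det (K(x_i, y_j)) ≥ 0` for all increasing
tuples `x_1 < ⋯ < x_n` in `X` and `y_1 < ⋯ < y_n` in `Y`. -/
def IsTotallyNonnegative {X Y : Set ℝ} (K : X → Y → ℝ) : Prop :=
  ∀ (n : ℕ) (x : Fin n → X) (y : Fin n → Y), StrictMono x → StrictMono y →
    0 ≤ (Matrix.of fun i j => K (x i) (y j)).det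

/-- The kernel `K` on `X × Y` is totally positive: `det (K(x_i, y_j)) > 0` for all increasing
tuples `x_1 < ⋯ < x_n` in `X` and `y_1 < ⋯ < y_n` in `Y`. -/
def IsTotallyPositive {X Y : Set ℝ} (K : X → Y → ℝ) : Prop :=
  ∀ (n : ℕ) (x : Fin n → X) (y : Fin n → Y), StrictMono x → StrictMono y →
    0 < (Matrix.of fun i j => K (x i) (y j)).det

end Q93.TP
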