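import Mathlib

/-!
Strict total positivity of `e^{x y}` and of the Gaussian kernel.
-/

set_option autoImplicit false

namespace Q93.TP

open Matrix Filter Topology

/-- an exponential sum with `n` frequencies and `n` zeros vanishes -/
lemma exp_zeros : ∀ (n : ℕ) (b : Fin n → ℝ), StrictMono b → ∀ (c t : Fin n → ℝ), StrictMono t →
    (∀ i, ∑ j, c j * Real.exp (b j * t i) = 0) → c = 0 := by
  intro n
  induction n with
  | zero => intro b _ c t _ _; exact Subsingleton.elim _ _
  | succ n ih =>
    intro b hb c t ht hz
    let g : ℝ → ℝ := fun s => ∑ j, c j * Real.exp ((b j - b 0) * s)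
    have hg0 : ∀ i, g (t i) = 0 := by
      intro i
      have h1 : g (t i) = Real.exp (-(b 0 * t i)) * ∑ j, c j * Real.exp (b j * t i) := by
        simp only [g]
        rw [Finset.mul_sum]
        refine Finset.sum_congr rfl fun j _ => ?_
        rw [mul_left_comm, ← Real.exp_add]
        congr 2
        ring
      rw [h1, hz i, mul_zero]
    have hgd : ∀ s, HasDerivAt g (∑ j, c j * ((b j - b 0) * Real.exp ((b j - b 0) * s))) s := by
      intro s
      refine HasDerivAt.fun_sum fun j _ => ?_
      have h1 : HasDerivAt (fun s : ℝ => (b j - b 0) * s) (b j - b 0) s := by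
        simpa using (hasDerivAt_id s).const_mul (b j - b 0)
      have h2 := (h1.exp).const_mul (c j)
      rw [mul_comm (b j - b 0) (Real.exp ((b j - b 0) * s))]
      exact h2
    have hex : ∀ i : Fin n, ∃ s ∈ Set.Ioo (t i.castSucc) (t i.succ),
        (∑ j, c j * ((b j - b 0) * Real.exp ((b j - b 0) * s))) = 0 := by
      intro i
      have hlt : t i.castSucc < t i.succ := ht (Fin.castSucc_lt_succ)
      obtain ⟨s, hs, hs'⟩ := exists_hasDerivAt_eq_zero hlt
        (fun x _ => (hgd x).continuousAt.continuousWithinAt)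
        (by rw [hg0, hg0]) (fun x _ => hgd x)
      exact ⟨s, hs, hs'⟩
    choose s hs hs' using hex
    have hsm : StrictMono s := by
      cases n with
      | zero => exact Subsingleton.strictMono _
      | succ n =>
        rw [Fin.strictMono_iff_lt_succ]
        intro i
        have h1 := (hs i.castSucc).2
        have h2 := (hs i.succ).1
        have h3 : t (i.castSucc).succ = t (i.succ).castSucc := by
          congr 1
        rw [h3] at h1
        exact h1.trans h2
    have hc := ih (fun j => b j.succ - b 0) (fun i j hij => sub_lt_sub_right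
      (hb (Fin.succ_lt_succ_iff.2 hij)) _) (fun j => c j.succ * (b j.succ - b 0)) s hsm (by
        intro i
        have h1 := hs' i
        rw [Fin.sum_univ_succ] at h1
        simp only [sub_self, zero_mul, mul_zero, zero_add] at h1
        rw [← h1]
        exact Finset.sum_congr rfl fun j _ => by ring)
    have hcs : ∀ j : Fin n, c j.succ = 0 := by
      intro j
      have h1 := congrFun hc j
      simp only [Pi.zero_apply] at h1
      have h2 : b j.succ - b 0 ≠ 0 := (sub_pos.2 (hb (Fin.succ_pos j))).ne'
      exact (mul_eq_zero.1 h1).resolve_right h2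
    have hc0 : c 0 = 0 := by
      have h1 := hz 0
      rw [Fin.sum_univ_succ] at h1
      simp only [hcs, zero_mul, Finset.sum_const_zero, add_zero] at h1
      exact (mul_eq_zero.1 h1).resolve_right (Real.exp_ne_zero _)
    ext j
    refine Fin.cases hc0 (fun j => hcs j) j

lemma expDet_ne {n : ℕ} {a b : Fin n → ℝ} (ha : StrictMono a) (hb : StrictMono b) :
    (Matrix.of fun i j => Real.exp (a i * b j)).det ≠ 0 := by
  intro h
  rw [← Matrix.exists_mulVec_eq_zero_iff] at h
  obtain ⟨v, hv, hv'⟩ := h
  apply hv
  refine exp_zeros n b hb v a ha fun i => ?_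
  have h1 := congrFun hv' i
  simp only [Matrix.mulVec, dotProduct, Matrix.of_apply, Pi.zero_apply] at h1
  rw [← h1]
  exact Finset.sum_congr rfl fun j _ => by rw [mul_comm (b j), mul_comm]

/-- the kernel `e^{x y}` is strictly totally positive -/
theorem expDet_pos {n : ℕ} {a b : Fin n → ℝ} (ha : StrictMono a) (hb : StrictMono b) :
    0 < (Matrix.of fun i j => Real.exp (a i * b j)).det := by
  let bb : ℝ → Fin n → ℝ := fun s j => (1 - s) * b j + s * (j : ℕ)
  have hbb : ∀ s ∈ Set.Icc (0 : ℝ) 1, StrictMono (bb s) := by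
    intro s hs i j hij
    simp only [bb]
    have h1 := hb hij
    have h2 : ((i : ℕ) : ℝ) < ((j : ℕ) : ℝ) := by exact_mod_cast hij
    rcases eq_or_lt_of_le hs.1 with h0 | h0
    · rw [← h0]; simpa using h1
    · have h3 : (1 - s) * b i ≤ (1 - s) * b j :=
        mul_le_mul_of_nonneg_left h1.le (by linarith [hs.2])
      have h4 : s * ((i : ℕ) : ℝ) < s * ((j : ℕ) : ℝ) := mul_lt_mul_of_pos_left h2 h0
      linarith
  let D : ℝ → ℝ := fun s => (Matrix.of fun i j => Real.exp (a i * bb s j)).det
  have hDc : Continuous D := by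
    refine Continuous.matrix_det ?_
    refine continuous_matrix fun i j => ?_
    simp only [Matrix.of_apply, bb]
    fun_prop
  have hD1 : 0 < D 1 := by
    have h1 : (Matrix.of fun i j => Real.exp (a i * bb 1 j)) =
        Matrix.vandermonde fun i => Real.exp (a i) := by
      ext i j
      simp only [Matrix.of_apply, bb, Matrix.vandermonde_apply, sub_self, zero_mul, zero_add,
        one_mul]
      rw [← Real.exp_nat_mul, mul_comm]
    simp only [D]
    rw [h1, Matrix.det_vandermonde]
    refine Finset.prod_pos fun i _ => Finset.prod_pos fun j hj => ?_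
    exact sub_pos.2 (Real.exp_lt_exp.2 (ha (Finset.mem_Ioi.1 hj)))
  have hD0 : D 0 = (Matrix.of fun i j => Real.exp (a i * b j)).det := by
    simp only [D, bb, sub_zero, one_mul, zero_mul, add_zero]
  rw [← hD0]
  by_contra hcon
  push Not at hcon
  obtain ⟨s, hs, hs'⟩ := intermediate_value_Icc (zero_le_one) hDc.continuousOn
    (show (0 : ℝ) ∈ Set.Icc (D 0) (D 1) from ⟨hcon, hD1.le⟩)
  exact expDet_ne ha (hbb s hs) hs'

/-- the Gaussian kernel -/
noncomputable def gau (c x t : ℝ) : ℝ := Real.exp (-(c * (x - t) ^ 2))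

lemma gau_pos (c x t : ℝ) : 0 < gau c x t := Real.exp_pos _

lemma gau_le_one {c : ℝ} (hc : 0 ≤ c) (x t : ℝ) : gau c x t ≤ 1 := by
  unfold gau
  rw [Real.exp_le_one_iff]
  have : 0 ≤ c * (x - t) ^ 2 := by positivity
  linarith

/-- the Gaussian kernel is strictly totally positive -/
theorem gauDet_pos {c : ℝ} (hc : 0 < c) {n : ℕ} {x t : Fin n → ℝ} (hx : StrictMono x)
    (ht : StrictMono t) : 0 < (Matrix.of fun i j => gau c (x i) (t j)).det := by
  have h1 := expDet_pos (a := fun i => 2 * c * x i) (b := t)
    (fun i j hij => mul_lt_mul_of_pos_left (hx hij) (by positivity)) ht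
  have e : (Matrix.of fun i j => gau c (x i) (t j)) = Matrix.of fun i j =>
      Real.exp (-(c * x i ^ 2)) * (Matrix.of fun i j => Real.exp (-(c * t j ^ 2)) *
        (Matrix.of fun i j => Real.exp (2 * c * x i * t j)) i j) i j := by
    ext i j
    simp only [Matrix.of_apply, gau, ← Real.exp_add]
    congr 1
    ring
  rw [e, Matrix.det_mul_column, Matrix.det_mul_row]
  exact mul_pos (Finset.prod_pos fun i _ => Real.exp_pos _)
    (mul_pos (Finset.prod_pos fun i _ => Real.exp_pos _) h1)

end Q93.TP
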