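import Pool.Agent.Q93.TP.Block

/-!
The totally positive kernels attached to finite sets of nodes.
-/

set_option autoImplicit false

namespace Q93.TP

open Matrix Filter Topology

/-- finite part -/
noncomputable def F0 (K : ℝ → ℝ → ℝ) (S R : Finset ℝ) (c x y : ℝ) : ℝ :=
  ∑ t ∈ S, ∑ s ∈ R, gau c x t * (K t s * gau c y s)

/-- terms of the additional part -/
noncomputable def ext (A c δ x y : ℝ) (k : ℕ) : ℝ :=
  gau c x (A + k) * (δ * (1 / 2) ^ k * gau c y (A + k))

/-- truncated kernel -/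
noncomputable def FL (K : ℝ → ℝ → ℝ) (S R : Finset ℝ) (A c δ : ℝ) (L : ℕ) (x y : ℝ) : ℝ :=
  F0 K S R c x y + ∑ k ∈ Finset.range L, ext A c δ x y k

/-- the kernel -/
noncomputable def FF (K : ℝ → ℝ → ℝ) (S R : Finset ℝ) (A c δ : ℝ) (x y : ℝ) : ℝ :=
  F0 K S R c x y + ∑' k, ext A c δ x y k

/-- additional nodes -/
noncomputable def EL (A : ℝ) (L : ℕ) : Finset ℝ := (Finset.range L).image fun k : ℕ => A + k

/-- weights of the additional nodes -/
noncomputable def eps (A δ t : ℝ) : ℝ := δ * (1 / 2) ^ ⌊t - A⌋₊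

lemma eps_eq (A δ : ℝ) (k : ℕ) : eps A δ (A + k) = δ * (1 / 2) ^ k := by
  unfold eps
  rw [add_sub_cancel_left, Nat.floor_natCast]

lemma mem_EL {A : ℝ} {L : ℕ} {t : ℝ} (h : t ∈ EL A L) : A ≤ t := by
  obtain ⟨k, -, rfl⟩ := Finset.mem_image.1 h
  have : (0 : ℝ) ≤ k := Nat.cast_nonneg k
  linarith

lemma inj_EL (A : ℝ) : Function.Injective fun k : ℕ => A + (k : ℝ) := by
  intro a b h
  simpa using h

lemma FL_eq (K : ℝ → ℝ → ℝ) {S R : Finset ℝ} {A : ℝ} (hS : ∀ t ∈ S, t < A) (hR : ∀ t ∈ R, t < A)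
    (c δ : ℝ) (L : ℕ) {n : ℕ} (x y : Fin n → ℝ) :
    (Matrix.of fun i j => FL K S R A c δ L (x i) (y j)) =
      (Matrix.of fun i (t : ↥(S ∪ EL A L)) => gau c (x i) t : Matrix (Fin n) ↥(S ∪ EL A L) ℝ) *
      ((Matrix.of fun (t : ↥(S ∪ EL A L)) (s : ↥(R ∪ EL A L)) => blk K A (eps A δ) t s :
          Matrix ↥(S ∪ EL A L) ↥(R ∪ EL A L) ℝ) *
        (Matrix.of fun (s : ↥(R ∪ EL A L)) j => gau c (y j) s :
          Matrix ↥(R ∪ EL A L) (Fin n) ℝ)) := by
  ext i j
  simp only [Matrix.mul_apply, Matrix.of_apply]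
  have hdS : Disjoint S (EL A L) := by
    rw [Finset.disjoint_left]
    intro t ht ht'
    exact absurd (hS t ht) (not_lt.2 (mem_EL ht'))
  have hdR : Disjoint R (EL A L) := by
    rw [Finset.disjoint_left]
    intro t ht ht'
    exact absurd (hR t ht) (not_lt.2 (mem_EL ht'))
  have e1 : ∀ t : ℝ, (∑ s : ↥(R ∪ EL A L), blk K A (eps A δ) t s * gau c (y j) s) =
      (∑ s ∈ R, blk K A (eps A δ) t s * gau c (y j) s) +
      ∑ s ∈ EL A L, blk K A (eps A δ) t s * gau c (y j) s := by
    intro t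
    rw [Finset.sum_coe_sort (R ∪ EL A L) (fun s => blk K A (eps A δ) t s * gau c (y j) s),
      Finset.sum_union hdR]
  simp only [e1]
  rw [Finset.sum_coe_sort (S ∪ EL A L) (fun t => gau c (x i) t *
    ((∑ s ∈ R, blk K A (eps A δ) t s * gau c (y j) s) +
      ∑ s ∈ EL A L, blk K A (eps A δ) t s * gau c (y j) s)), Finset.sum_union hdS]
  unfold FL F0
  congr 1
  · refine Finset.sum_congr rfl fun t ht => ?_
    have e2 : ∀ s ∈ EL A L, blk K A (eps A δ) t s * gau c (y j) s = 0 := by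
      intro s hs
      simp only [blk, if_pos (hS t ht), if_neg (not_lt.2 (mem_EL hs)), zero_mul]
    rw [Finset.sum_eq_zero e2, add_zero, Finset.mul_sum]
    refine Finset.sum_congr rfl fun s hs => ?_
    simp only [blk, if_pos (hS t ht), if_pos (hR s hs)]
  · unfold EL
    rw [Finset.sum_image (fun a _ b _ h => inj_EL A h)]
    refine Finset.sum_congr rfl fun k hk => ?_
    have hk' : ¬ A + (k : ℝ) < A := by
      have : (0 : ℝ) ≤ k := Nat.cast_nonneg k
      linarith
    have e2 : ∀ s ∈ R, blk K A (eps A δ) (A + k) s * gau c (y j) s = 0 := by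
      intro s hs
      have : A + (k : ℝ) ≠ s := by
        intro h
        have := hR s hs
        rw [← h] at this
        exact hk' this
      simp only [blk, if_neg hk', if_neg this, zero_mul]
    rw [Finset.sum_eq_zero e2, zero_add]
    rw [Finset.sum_eq_single_of_mem (A + (k : ℝ)) (Finset.mem_image.2 ⟨k, hk, rfl⟩)]
    · simp only [blk, if_neg hk', if_true, eps_eq, ext]
    · intro s _ hs
      simp only [blk, if_neg hk', if_neg hs.symm, zero_mul]

lemma summable_ext {c δ : ℝ} (hc : 0 ≤ c) (hδ : 0 ≤ δ) (A x y : ℝ) :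
    Summable (ext A c δ x y) := by
  refine Summable.of_nonneg_of_le (fun k => ?_) (fun k => ?_)
    (summable_geometric_two.mul_left δ)
  · unfold ext
    have := (gau_pos c x (A + k)).le
    have := (gau_pos c y (A + k)).le
    positivity
  · unfold ext
    have h1 := (gau_pos c x (A + k)).le
    have h2 := (gau_pos c y (A + k)).le
    have h3 := gau_le_one hc x (A + k)
    have h4 := gau_le_one hc y (A + k)
    have h5 : (0 : ℝ) ≤ δ * (1 / 2) ^ k := by positivity
    calc gau c x (A + k) * (δ * (1 / 2) ^ k * gau c y (A + k))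
        ≤ 1 * (δ * (1 / 2) ^ k * 1) := by gcongr
      _ = δ * (1 / 2) ^ k := by ring

/-- the kernel `FF` is totally positive -/
theorem FF_det_pos {K : ℝ → ℝ → ℝ} {S R : Finset ℝ} (hK : TN S R K) {A : ℝ} (hS : ∀ t ∈ S, t < A)
    (hR : ∀ t ∈ R, t < A) {c δ : ℝ} (hc : 0 < c) (hδ : 0 < δ) {n : ℕ} {x y : Fin n → ℝ}
    (hx : StrictMono x) (hy : StrictMono y) :
    0 < (Matrix.of fun i j => FF K S R A c δ (x i) (y j)).det := by
  have hε : ∀ t, 0 ≤ eps A δ t := fun t => by unfold eps; positivity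
  have hblk := blk_TN hK A hε
  -- the additional nodes
  let T : Fin n → ℝ := fun i => A + (i : ℕ)
  have hT : StrictMono T := by
    intro i j hij
    have : ((i : ℕ) : ℝ) < ((j : ℕ) : ℝ) := by exact_mod_cast hij
    simp only [T]
    linarith
  set c0 : ℝ := (n.factorial : ℝ)⁻¹ * ((n.factorial : ℝ)⁻¹ *
    ((Matrix.of fun i j => gau c (x i) (T j)).det *
      ((∏ i : Fin n, δ * (1 / 2) ^ (i : ℕ)) * (Matrix.of fun i j => gau c (y j) (T i)).det))) with hc0
  have hg1 := gauDet_pos hc hx hT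
  have hg2 : 0 < (Matrix.of fun i j => gau c (y j) (T i)).det := by
    have := gauDet_pos hc hy hT
    rw [← Matrix.det_transpose] at this
    exact this
  have hc0pos : 0 < c0 := by
    rw [hc0]
    have : 0 < ∏ i : Fin n, δ * (1 / 2 : ℝ) ^ (i : ℕ) := Finset.prod_pos fun i _ => by positivity
    positivity
  have hge : ∀ L, n ≤ L → c0 ≤ (Matrix.of fun i j => FL K S R A c δ L (x i) (y j)).det := by
    intro L hL
    rw [FL_eq K hS hR]
    have hmem : ∀ i : Fin n, T i ∈ EL A L := fun i =>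
      Finset.mem_image.2 ⟨(i : ℕ), Finset.mem_range.2 (i.2.trans_le hL), rfl⟩
    have hmemS : ∀ t, t ∈ S ∪ EL A L → t ∈ (S : Set ℝ) ∪ Set.Ici A := by
      intro t ht
      rcases Finset.mem_union.1 ht with h | h
      · exact Or.inl h
      · exact Or.inr (mem_EL h)
    have hmemR : ∀ t, t ∈ R ∪ EL A L → t ∈ (R : Set ℝ) ∪ Set.Ici A := by
      intro t ht
      rcases Finset.mem_union.1 ht with h | h
      · exact Or.inl h
      · exact Or.inr (mem_EL h)
    have h := comp_ge (n := n)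
      (Matrix.of fun i (t : ↥(S ∪ EL A L)) => gau c (x i) t : Matrix (Fin n) ↥(S ∪ EL A L) ℝ)
      (Matrix.of fun (t : ↥(S ∪ EL A L)) (s : ↥(R ∪ EL A L)) => blk K A (eps A δ) t s :
          Matrix ↥(S ∪ EL A L) ↥(R ∪ EL A L) ℝ)
      (Matrix.of fun (s : ↥(R ∪ EL A L)) j => gau c (y j) s :
          Matrix ↥(R ∪ EL A L) (Fin n) ℝ)
      (fun a ha => (gauDet_pos hc hx (t := fun i => (a i : ℝ)) ha).le)
      (fun a b ha hb => hblk n (fun i => (a i : ℝ)) (fun i => (b i : ℝ)) ha hb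
        (fun i => hmemS _ (a i).2) (fun i => hmemR _ (b i).2))
      (fun b hb => by
        have := gauDet_pos hc hy (t := fun i => (b i : ℝ)) hb
        rw [← Matrix.det_transpose] at this
        exact this.le)
      (fun i => ⟨T i, Finset.mem_union_right _ (hmem i)⟩)
      (fun i => ⟨T i, Finset.mem_union_right _ (hmem i)⟩)
    refine le_trans (le_of_eq ?_) h
    rw [hc0]
    congr 3
    congr 1
    · -- the diagonal block
      have : ((Matrix.of fun (t : ↥(S ∪ EL A L)) (s : ↥(R ∪ EL A L)) => blk K A (eps A δ) t s :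
          Matrix ↥(S ∪ EL A L) ↥(R ∪ EL A L) ℝ).submatrix
          (fun i : Fin n => ⟨T i, Finset.mem_union_right _ (hmem i)⟩)
          (fun i : Fin n => ⟨T i, Finset.mem_union_right _ (hmem i)⟩)) =
          Matrix.diagonal fun i : Fin n => δ * (1 / 2 : ℝ) ^ (i : ℕ) := by
        ext i j
        have h1 : ¬ T i < A := by
          have : (0 : ℝ) ≤ ((i : ℕ) : ℝ) := Nat.cast_nonneg _
          simp only [T]
          linarith
        simp only [Matrix.submatrix_apply, Matrix.of_apply, blk, if_neg h1]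
        by_cases hij : i = j
        · subst hij
          simp only [if_true, Matrix.diagonal_apply_eq, T, eps_eq]
        · rw [Matrix.diagonal_apply_ne _ hij, if_neg (fun h => hij (hT.injective h))]
      rw [this, Matrix.det_diagonal]
  have hlim : Tendsto (fun L => (Matrix.of fun i j => FL K S R A c δ L (x i) (y j)).det) atTop
      (𝓝 (Matrix.of fun i j => FF K S R A c δ (x i) (y j)).det) := by
    have hcont : Continuous fun M : Matrix (Fin n) (Fin n) ℝ => M.det :=
      Continuous.matrix_det continuous_id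
    refine (hcont.tendsto _).comp ?_
    refine tendsto_pi_nhds.2 fun i => tendsto_pi_nhds.2 fun j => ?_
    simp only [Matrix.of_apply]
    unfold FL FF
    exact tendsto_const_nhds.add (summable_ext hc.le hδ.le A (x i) (y j)).hasSum.tendsto_sum_nat
  exact hc0pos.trans_le (ge_of_tendsto hlim (Filter.eventually_atTop.2 ⟨n, hge⟩))

/-- normalising factor -/
noncomputable def ZZ (S : Finset ℝ) (c x : ℝ) : ℝ := ∑ t ∈ S, gau c x t

lemma ZZ_pos {S : Finset ℝ} (hS : S.Nonempty) (c x : ℝ) : 0 < ZZ S c x :=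
  Finset.sum_pos (fun t _ => gau_pos c x t) hS

/-- the normalised kernel -/
noncomputable def KK (K : ℝ → ℝ → ℝ) (S R : Finset ℝ) (A c δ : ℝ) (x y : ℝ) : ℝ :=
  (ZZ S c x)⁻¹ * ((ZZ R c y)⁻¹ * FF K S R A c δ x y)

theorem KK_det_pos {K : ℝ → ℝ → ℝ} {S R : Finset ℝ} (hK : TN S R K) (hSne : S.Nonempty)
    (hRne : R.Nonempty) {A : ℝ} (hS : ∀ t ∈ S, t < A)
    (hR : ∀ t ∈ R, t < A) {c δ : ℝ} (hc : 0 < c) (hδ : 0 < δ) {n : ℕ} {x y : Fin n → ℝ}
    (hx : StrictMono x) (hy : StrictMono y) :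
    0 < (Matrix.of fun i j => KK K S R A c δ (x i) (y j)).det := by
  have e : (Matrix.of fun i j => KK K S R A c δ (x i) (y j)) = Matrix.of fun i j =>
      (ZZ S c (x i))⁻¹ * (Matrix.of fun i j => (ZZ R c (y j))⁻¹ *
        (Matrix.of fun i j => FF K S R A c δ (x i) (y j)) i j) i j := rfl
  rw [e, Matrix.det_mul_column, Matrix.det_mul_row]
  exact mul_pos (Finset.prod_pos fun i _ => inv_pos.2 (ZZ_pos hSne c _))
    (mul_pos (Finset.prod_pos fun i _ => inv_pos.2 (ZZ_pos hRne c _))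
      (FF_det_pos hK hS hR hc hδ hx hy))

end Q93.TP
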