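import Pool.Agent.Q93.TP.Conv
import Pool.Agent.Q93.TP.Defs

/-!
Approximation of totally nonnegative kernels by totally positive kernels.
-/

set_option autoImplicit false

namespace Q93.TP

open Matrix Filter Topology

section

variable {X Y : Set ℝ} (K : X → Y → ℝ)

open Classical in
/-- extension by zero -/
noncomputable def KE (t s : ℝ) : ℝ := if h : t ∈ X ∧ s ∈ Y then K ⟨t, h.1⟩ ⟨s, h.2⟩ else 0

lemma KE_eq {t s : ℝ} (ht : t ∈ X) (hs : s ∈ Y) : KE K t s = K ⟨t, ht⟩ ⟨s, hs⟩ := by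
  unfold KE
  rw [dif_pos ⟨ht, hs⟩]

lemma KE_TN (hK : IsTotallyNonnegative K) {S R : Finset ℝ} (hS : (S : Set ℝ) ⊆ X)
    (hR : (R : Set ℝ) ⊆ Y) : TN S R (KE K) := by
  intro n x y hx hy hxm hym
  have h := hK n (fun i => ⟨x i, hS (hxm i)⟩) (fun i => ⟨y i, hR (hym i)⟩)
    (fun i j hij => hx hij) (fun i j hij => hy hij)
  have e : (Matrix.of fun i j => KE K (x i) (y j)) =
      Matrix.of fun i j => K ⟨x i, hS (hxm i)⟩ ⟨y j, hR (hym j)⟩ := by
    ext i j
    exact KE_eq K _ _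
  rw [e]
  exact h

/-- finite sets of nodes -/
noncomputable def nod (d : ℕ → X) (m : ℕ) : Finset ℝ :=
  (Finset.range (m + 1)).image fun k => (d k : ℝ)

lemma nod_sub (d : ℕ → X) (m : ℕ) : (nod d m : Set ℝ) ⊆ X := by
  intro t ht
  obtain ⟨k, -, rfl⟩ := Finset.mem_image.1 (Finset.mem_coe.1 ht)
  exact (d k).2

lemma nod_nonempty (d : ℕ → X) (m : ℕ) : (nod d m).Nonempty :=
  ⟨d 0, Finset.mem_image.2 ⟨0, by simp, rfl⟩⟩

lemma nod_card (d : ℕ → X) (m : ℕ) : (nod d m).card ≤ m + 1 := by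
  refine Finset.card_image_le.trans ?_
  simp

lemma nod_near {d : ℕ → X} (hd : DenseRange d) (x : X) {r : ℝ} (hr : 0 < r) :
    ∀ᶠ m in atTop, ∃ t ∈ nod d m, |t - x| ≤ r := by
  obtain ⟨k, hk⟩ := hd.exists_dist_lt x hr
  filter_upwards [eventually_ge_atTop k] with m hm
  refine ⟨d k, Finset.mem_image.2 ⟨k, Finset.mem_range.2 (by omega), rfl⟩, ?_⟩
  rw [Subtype.dist_eq, Real.dist_eq, abs_sub_comm] at hk
  exact hk.le

end

/-- parameters -/
noncomputable def BB {X Y : Set ℝ} (K : X → Y → ℝ) (d : ℕ → X) (f : ℕ → Y) (m : ℕ) : ℝ :=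
  1 + ∑ t ∈ nod d m, ∑ s ∈ nod f m, |KE K t s|

noncomputable def cc {X Y : Set ℝ} (K : X → Y → ℝ) (d : ℕ → X) (f : ℕ → Y) (m : ℕ) : ℝ :=
  (m + 1) * (BB K d f m + (m + 1))

noncomputable def AA {X Y : Set ℝ} (d : ℕ → X) (f : ℕ → Y) (m : ℕ) : ℝ :=
  1 + ∑ t ∈ nod d m, |t| + ∑ s ∈ nod f m, |s|

/-- the approximating sequence -/
noncomputable def Kseq {X Y : Set ℝ} (K : X → Y → ℝ) (d : ℕ → X) (f : ℕ → Y) (m : ℕ)
    (x : X) (y : Y) : ℝ :=
  KK (KE K) (nod d m) (nod f m) (AA d f m) (cc K d f m)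
    (Real.exp (-((m + 1) * cc K d f m))) x y

section

variable {X Y : Set ℝ} (K : X → Y → ℝ) (d : ℕ → X) (f : ℕ → Y)

lemma BB_ge (m : ℕ) : 1 ≤ BB K d f m := by
  unfold BB
  have : 0 ≤ ∑ t ∈ nod d m, ∑ s ∈ nod f m, |KE K t s| :=
    Finset.sum_nonneg fun t _ => Finset.sum_nonneg fun s _ => abs_nonneg _
  linarith

lemma cc_pos (m : ℕ) : 0 < cc K d f m := by
  unfold cc
  have := BB_ge K d f m
  positivity

theorem Kseq_TP (hK : IsTotallyNonnegative K) (m : ℕ) : IsTotallyPositive (Kseq K d f m) := by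
  intro n x y hx hy
  have hA1 : ∀ t ∈ nod d m, t < AA d f m := by
    intro t ht
    have h1 : |t| ≤ ∑ t ∈ nod d m, |t| :=
      Finset.single_le_sum (f := fun t : ℝ => |t|) (fun t _ => abs_nonneg _) ht
    have h2 : 0 ≤ ∑ s ∈ nod f m, |s| := Finset.sum_nonneg fun s _ => abs_nonneg _
    have := le_abs_self t
    unfold AA
    linarith
  have hA2 : ∀ t ∈ nod f m, t < AA d f m := by
    intro t ht
    have h1 : |t| ≤ ∑ t ∈ nod f m, |t| :=
      Finset.single_le_sum (f := fun t : ℝ => |t|) (fun t _ => abs_nonneg _) ht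
    have h2 : 0 ≤ ∑ s ∈ nod d m, |s| := Finset.sum_nonneg fun s _ => abs_nonneg _
    have := le_abs_self t
    unfold AA
    linarith
  exact KK_det_pos (KE_TN K hK (nod_sub d m) (nod_sub f m)) (nod_nonempty d m) (nod_nonempty f m)
    hA1 hA2 (cc_pos K d f m) (Real.exp_pos _) (x := fun i => (x i : ℝ)) (y := fun i => (y i : ℝ))
    (fun i j hij => hx hij) (fun i j hij => hy hij)

theorem Kseq_tendsto {d : ℕ → X} {f : ℕ → Y} (hd : DenseRange d) (hf : DenseRange f) (x : X) (y : Y)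
    (hcont : ContinuousAt (fun p : X × Y => K p.1 p.2) (x, y)) :
    Tendsto (fun m => Kseq K d f m x y) atTop (𝓝 (K x y)) := by
  rw [Metric.tendsto_nhds]
  intro ε hε
  -- the neighbourhood
  obtain ⟨η, hη, hη'⟩ := Metric.continuousAt_iff.1 hcont (ε / 3) (by positivity)
  have hnear : ∀ m, ∀ t ∈ nod d m, ∀ s ∈ nod f m, |t - x| < η → |s - y| < η →
      |KE K t s - K x y| ≤ ε / 3 := by
    intro m t ht s hs h1 h2
    have htX := nod_sub d m (Finset.mem_coe.2 ht)
    have hsY := nod_sub f m (Finset.mem_coe.2 hs)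
    have h3 : dist ((⟨t, htX⟩, ⟨s, hsY⟩) : X × Y) (x, y) < η := by
      rw [Prod.dist_eq]
      simp only [Subtype.dist_eq, Real.dist_eq]
      exact max_lt h1 h2
    have h4 := hη' h3
    rw [Real.dist_eq] at h4
    rw [KE_eq K htX hsY]
    exact h4.le
  have e1 := nod_near hd x (r := η / 2) (by positivity)
  have e2 := nod_near hf y (r := η / 2) (by positivity)
  -- the growing parameter
  have hu : Tendsto (fun m : ℕ => BB K d f m + ((m : ℝ) + 1)) atTop atTop := by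
    refine tendsto_atTop_mono (fun m => ?_) tendsto_natCast_atTop_atTop
    have := BB_ge K d f m
    linarith
  have hlim : Tendsto (fun m : ℕ => (1 + |K x y|) * ((BB K d f m + ((m : ℝ) + 1)) ^ 2 *
      Real.exp (-(BB K d f m + ((m : ℝ) + 1))))) atTop (𝓝 ((1 + |K x y|) * 0)) :=
    ((Real.tendsto_pow_mul_exp_neg_atTop_nhds_zero 2).comp hu).const_mul _
  rw [mul_zero] at hlim
  have e3 := hlim.eventually (gt_mem_nhds (show (0 : ℝ) < ε / 3 by positivity))
  have hlim2 : Tendsto (fun m : ℕ => 2 * Real.exp (-(BB K d f m + ((m : ℝ) + 1)))) atTop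
      (𝓝 (2 * 0)) :=
    ((Real.tendsto_exp_neg_atTop_nhds_zero).comp hu).const_mul _
  rw [mul_zero] at hlim2
  have e4 := hlim2.eventually (gt_mem_nhds (show (0 : ℝ) < ε / 3 by positivity))
  have e5 : ∀ᶠ m : ℕ in atTop, 1 ≤ ((m : ℝ) + 1) * (η ^ 2 / 2) := by
    have h1 : Tendsto (fun m : ℕ => ((m : ℝ) + 1) * (η ^ 2 / 2)) atTop atTop :=
      (tendsto_atTop_add_const_right _ _ tendsto_natCast_atTop_atTop).atTop_mul_const (by positivity)
    exact h1.eventually_ge_atTop 1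
  have e6 : ∀ᶠ m : ℕ in atTop, 1 + η ^ 2 / 2 ≤ (m : ℝ) + 1 := by
    have h1 : Tendsto (fun m : ℕ => (m : ℝ) + 1) atTop atTop :=
      tendsto_atTop_add_const_right _ _ tendsto_natCast_atTop_atTop
    exact h1.eventually_ge_atTop _
  filter_upwards [e1, e2, e3, e4, e5, e6] with m h1 h2 h3 h4 h5 h6
  rw [Real.dist_eq]
  set u := BB K d f m + ((m : ℝ) + 1) with hudef
  have hcu : cc K d f m = ((m : ℝ) + 1) * u := rfl
  have hB := BB_ge K d f m
  have hm0 : (0 : ℝ) ≤ m := Nat.cast_nonneg m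
  have hu1 : 1 ≤ u := by rw [hudef]; linarith
  have hmu : (m : ℝ) + 1 ≤ u := by rw [hudef]; linarith
  have hest := est (K := KE K) (AA d f m) (c := cc K d f m)
    (δ := Real.exp (-((m + 1) * cc K d f m))) (x := x) (y := y) (η := η) (k0 := K x y)
    (e := ε / 3) (cc_pos K d f m) (Real.exp_pos _).le hη (by positivity) (hnear m) h1 h2
  -- second term
  have hsum : (∑ t ∈ nod d m, ∑ s ∈ nod f m, |KE K t s - K x y|) ≤ (1 + |K x y|) * u ^ 2 := by
    calc (∑ t ∈ nod d m, ∑ s ∈ nod f m, |KE K t s - K x y|)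
        ≤ ∑ t ∈ nod d m, ∑ s ∈ nod f m, (|KE K t s| + |K x y|) :=
          Finset.sum_le_sum fun t _ => Finset.sum_le_sum fun s _ => abs_sub _ _
      _ = (∑ t ∈ nod d m, ∑ s ∈ nod f m, |KE K t s|) +
          ((nod d m).card : ℝ) * (((nod f m).card : ℝ) * |K x y|) := by
          simp only [Finset.sum_add_distrib, Finset.sum_const, nsmul_eq_mul]
      _ ≤ u + ((m : ℝ) + 1) * (((m : ℝ) + 1) * |K x y|) := by
          have c1 : ((nod d m).card : ℝ) ≤ (m : ℝ) + 1 := by exact_mod_cast nod_card d m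
          have c2 : ((nod f m).card : ℝ) ≤ (m : ℝ) + 1 := by exact_mod_cast nod_card f m
          have c3 : (∑ t ∈ nod d m, ∑ s ∈ nod f m, |KE K t s|) ≤ u := by
            rw [hudef]
            unfold BB
            linarith
          gcongr
      _ ≤ u ^ 2 + u * (u * |K x y|) := by
          have c1 : u ≤ u ^ 2 := by nlinarith
          have := abs_nonneg (K x y)
          gcongr
      _ = (1 + |K x y|) * u ^ 2 := by ring
  have hexp : Real.exp (-(cc K d f m * η ^ 2 / 2)) ≤ Real.exp (-u) := by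
    apply Real.exp_le_exp.2
    rw [hcu]
    have : u * 1 ≤ u * (((m : ℝ) + 1) * (η ^ 2 / 2)) := mul_le_mul_of_nonneg_left h5 (by linarith)
    nlinarith
  have hsecond : Real.exp (-(cc K d f m * η ^ 2 / 2)) *
      (∑ t ∈ nod d m, ∑ s ∈ nod f m, |KE K t s - K x y|) < ε / 3 := by
    have h7 : Real.exp (-(cc K d f m * η ^ 2 / 2)) *
        (∑ t ∈ nod d m, ∑ s ∈ nod f m, |KE K t s - K x y|) ≤
        Real.exp (-u) * ((1 + |K x y|) * u ^ 2) :=
      mul_le_mul hexp hsum (Finset.sum_nonneg fun t _ => Finset.sum_nonneg fun s _ => abs_nonneg _)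
        (Real.exp_pos _).le
    have h8 : Real.exp (-u) * ((1 + |K x y|) * u ^ 2) = (1 + |K x y|) * (u ^ 2 * Real.exp (-u)) := by
      ring
    rw [h8] at h7
    exact h7.trans_lt h3
  have hthird : 2 * Real.exp (-((m + 1) * cc K d f m)) * Real.exp (cc K d f m * η ^ 2 / 2) < ε / 3 := by
    have h7 : 2 * Real.exp (-((m + 1) * cc K d f m)) * Real.exp (cc K d f m * η ^ 2 / 2) ≤
        2 * Real.exp (-u) := by
      rw [mul_assoc, ← Real.exp_add]
      refine mul_le_mul_of_nonneg_left (Real.exp_le_exp.2 ?_) (by norm_num)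
      have hc : u ≤ cc K d f m := by
        rw [hcu]
        nlinarith
      have hcp := cc_pos K d f m
      nlinarith [mul_le_mul_of_nonneg_left h6 hcp.le]
    exact h7.trans_lt h4
  calc |Kseq K d f m x y - K x y| ≤ _ := hest
    _ < ε / 3 + ε / 3 + ε / 3 := by
      have := add_lt_add (add_lt_add_of_le_of_lt (le_refl (ε / 3)) hsecond) hthird
      exact this
    _ = ε := by ring

end

theorem main {X Y : Set ℝ} (hX : X.Nonempty) (hY : Y.Nonempty) (K : X → Y → ℝ)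
    (hK : IsTotallyNonnegative K) :
    ∃ F : ℕ → X → Y → ℝ, (∀ m, IsTotallyPositive (F m)) ∧ ∀ (x : X) (y : Y),
      ContinuousAt (fun p : X × Y => K p.1 p.2) (x, y) →
      Tendsto (fun m => F m x y) atTop (𝓝 (K x y)) := by
  have := hX.to_subtype
  have := hY.to_subtype
  exact ⟨Kseq K (TopologicalSpace.denseSeq X) (TopologicalSpace.denseSeq Y),
    fun m => Kseq_TP K _ _ hK m, fun x y h => Kseq_tendsto K
      (TopologicalSpace.denseRange_denseSeq X) (TopologicalSpace.denseRange_denseSeq Y) x y h⟩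

end Q93.TP
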